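import Pool.Agent.H840.KP.Stm
set_option autoImplicit false

/-!
# KP (helper840), S_INV: a plane integral identity by the substitution `x = 2 / u`
-/

open Complex Filter Topology MeasureTheory Set Metric

namespace Pool.Agent.H766.KP

open Pool.Agent.H840.AS (e0)



theorem det_smulRight (c : ℂ) :
    (((1 : ℂ →L[ℂ] ℂ).smulRight c).restrictScalars ℝ).det = ‖c‖ ^ 2 := by
  simp [ContinuousLinearMap.det, LinearMap.det_restrictScalars, Algebra.norm_complex_eq, Complex.normSq_eq_norm_sq]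

theorem inv_sub : Pool.Agent.H840.KP.S_INV := by
  unfold Pool.Agent.H840.KP.S_INV
  have h0 : ∀ g : ℂ → ℝ, ∫ x : ℂ, g x = ∫ x in ({0}ᶜ : Set ℂ), g x := by
    intro g
    rw [← setIntegral_univ]
    refine (setIntegral_congr_set ?_).symm
    rw [ae_eq_univ, compl_compl]
    exact measure_singleton 0
  have himg : (fun x : ℂ => 2 / x) '' ({0}ᶜ : Set ℂ) = {0}ᶜ := by
    ext y
    simp only [mem_image, mem_compl_iff, mem_singleton_iff]
    constructor
    · rintro ⟨x, hx, rfl⟩
      exact div_ne_zero two_ne_zero hx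
    · intro hy
      exact ⟨2 / y, div_ne_zero two_ne_zero hy, by field_simp⟩
  have hder : ∀ x ∈ ({0}ᶜ : Set ℂ), HasFDerivWithinAt (fun x : ℂ => 2 / x)
      (((1 : ℂ →L[ℂ] ℂ).smulRight (-2 / x ^ 2)).restrictScalars ℝ) {0}ᶜ x := by
    intro x hx
    have hx' : x ≠ 0 := hx
    have h1 : HasDerivAt (fun x : ℂ => 2 / x) (-2 / x ^ 2) x := by
      have h2 := (hasDerivAt_inv hx').const_mul 2
      have e : (2 : ℂ) * -(x ^ 2)⁻¹ = -2 / x ^ 2 := by field_simp
      rw [e] at h2
      refine h2.congr_of_eventuallyEq (Eventually.of_forall fun y => ?_)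
      simp only [div_eq_mul_inv]
    exact (h1.hasFDerivAt.restrictScalars ℝ).hasFDerivWithinAt
  have hinj : InjOn (fun x : ℂ => 2 / x) ({0}ᶜ : Set ℂ) := by
    intro x hx y hy hxy
    have hx' : x ≠ 0 := hx
    have hy' : y ≠ 0 := hy
    simp only at hxy
    field_simp at hxy
    exact hxy.symm
  have h1 := integral_image_eq_integral_abs_det_fderiv_smul (volume : Measure ℂ)
    (measurableSet_singleton 0).compl hder hinj (fun x => ‖x‖ ^ 2 / ‖∏ k, (x - e0 k)‖)
  rw [himg] at h1
  rw [h0, h0 (fun x => 1 / ‖∏ k, (x - e0 k)‖), h1, ← integral_const_mul]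
  refine setIntegral_congr_fun (measurableSet_singleton 0).compl ?_
  intro x hx
  have hx' : x ≠ 0 := hx
  simp only [det_smulRight, smul_eq_mul]
  have e1 : ∏ k, (2 / x - e0 k) = 8 * (∏ k, (x - e0 k)) / x ^ 6 := by
    simp only [Fin.prod_univ_five]
    simp [e0]
    field_simp
    ring
  have hn : ‖x‖ ≠ 0 := norm_ne_zero_iff.2 hx'
  rw [e1]
  simp only [norm_div, norm_mul, norm_pow, norm_neg]
  rw [abs_of_nonneg (by positivity)]
  by_cases hp : ‖∏ k, (x - e0 k)‖ = 0
  · simp [hp]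
  · have e8 : ‖(8 : ℂ)‖ = 8 := by simp
    have e2 : ‖(2 : ℂ)‖ = 2 := by simp
    rw [e8, e2]
    field_simp
    ring

end Pool.Agent.H766.KP
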