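import Pool.Agent.H840.KP.Stm
import Pool.Agent.H840.AS.EZ
set_option autoImplicit false

/-!
# KP (helper840), S_PER: a relation between two periods by the substitution `x ↦ 2 / x`
-/

open Complex Filter Topology MeasureTheory Set Metric

namespace Pool.Agent.H766.KP

open Pool.Agent.H840.AS

/-- the product of the roots -/
noncomputable def R (x : ℝ) : ℝ := Real.sqrt (x + 2) * Real.sqrt (-(x + 1)) * Real.sqrt (-x) *
  Real.sqrt (-(x - 1)) * Real.sqrt (-(x - 2))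

theorem R_pos {x : ℝ} (hx : x ∈ Ioo (-2 : ℝ) (-1)) : 0 < R x := by
  have e1 : 0 < Real.sqrt (x + 2) := Real.sqrt_pos.2 (by linarith [hx.1])
  have e2 : 0 < Real.sqrt (-(x + 1)) := Real.sqrt_pos.2 (by linarith [hx.2])
  have e3 : 0 < Real.sqrt (-x) := Real.sqrt_pos.2 (by linarith [hx.2])
  have e4 : 0 < Real.sqrt (-(x - 1)) := Real.sqrt_pos.2 (by linarith [hx.2])
  have e5 : 0 < Real.sqrt (-(x - 2)) := Real.sqrt_pos.2 (by linarith [hx.2])
  unfold R
  positivity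

theorem R_eq {x : ℝ} (hx : x ∈ Ioo (-2 : ℝ) (-1)) : R x =
    Real.sqrt ((x + 2) * -(x + 1) * -x * -(x - 1) * -(x - 2)) := by
  have e1 : 0 ≤ x + 2 := by linarith [hx.1]
  have e2 : 0 ≤ -(x + 1) := by linarith [hx.2]
  have e3 : 0 ≤ -x := by linarith [hx.2]
  have e4 : 0 ≤ -(x - 1) := by linarith [hx.2]
  unfold R
  rw [Real.sqrt_mul (by positivity), Real.sqrt_mul (by positivity), Real.sqrt_mul (by positivity),
    Real.sqrt_mul e1]

theorem inv_mem {x : ℝ} (hx : x ∈ Ioo (-2 : ℝ) (-1)) : 2 / x ∈ Ioo (-2 : ℝ) (-1) := by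
  have h : x < 0 := by linarith [hx.2]
  constructor
  · rw [lt_div_iff_of_neg h]
    linarith [hx.2]
  · rw [div_lt_iff_of_neg h]
    linarith [hx.1]

theorem inv_mem' {x : ℝ} (hx : x ∈ Icc (-2 : ℝ) (-1)) : 2 / x ∈ Icc (-2 : ℝ) (-1) := by
  have h : x < 0 := by linarith [hx.2]
  constructor
  · rw [le_div_iff_of_neg h]
    linarith [hx.2]
  · rw [div_le_iff_of_neg h]
    linarith [hx.1]

theorem R_inv {x : ℝ} (hx : x ∈ Ioo (-2 : ℝ) (-1)) :
    R (2 / x) = 2 * Real.sqrt 2 / (-x) ^ 3 * R x := by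
  have h : 0 < -x := by linarith [hx.2]
  have h' : x ≠ 0 := by linarith [hx.2]
  rw [R_eq (inv_mem hx), R_eq hx]
  have e : (2 / x + 2) * -(2 / x + 1) * -(2 / x) * -(2 / x - 1) * -(2 / x - 2) =
      (2 * Real.sqrt 2 / (-x) ^ 3) ^ 2 * ((x + 2) * -(x + 1) * -x * -(x - 1) * -(x - 2)) := by
    rw [div_pow, mul_pow, Real.sq_sqrt (by norm_num)]
    field_simp
    ring
  rw [e, Real.sqrt_mul (sq_nonneg _), Real.sqrt_sq (by positivity)]

theorem mem_Dn {x : ℝ} (hx : x ∈ Ioo (-2 : ℝ) (-1)) : (x : ℂ) ∈ Dn e0 := by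
  apply mem_Dn_real
  simp only [mem_insert_iff, mem_singleton_iff, not_or]
  refine ⟨?_, ?_, ?_, ?_, ?_⟩ <;> rintro rfl <;> norm_num at hx

theorem w_val (p : ℕ) {x : ℝ} (hx : x ∈ Ioo (-2 : ℝ) (-1)) :
    w e0 p x = (x : ℂ) ^ p * ((R x : ℝ) : ℂ)⁻¹ := by
  unfold w R
  rw [rt_e0_eq, sq_ofReal (by linarith [hx.1]), sq_ofReal_neg (by linarith [hx.2]),
    sq_ofReal_neg (by linarith [hx.2]), sq_ofReal_neg (by linarith [hx.2]),
    sq_ofReal_neg (by linarith [hx.2])]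
  push_cast
  have e7 : (Real.sqrt (x + 2) : ℂ) * (I * (Real.sqrt (-(x + 1)) : ℂ)) *
      (I * (Real.sqrt (-x) : ℂ)) * (I * (Real.sqrt (-(x - 1)) : ℂ)) *
      (I * (Real.sqrt (-(x - 2)) : ℂ)) =
      (Real.sqrt (x + 2) : ℂ) * (Real.sqrt (-(x + 1)) : ℂ) *
      (Real.sqrt (-x) : ℂ) * (Real.sqrt (-(x - 1)) : ℂ) * (Real.sqrt (-(x - 2)) : ℂ) := by
    linear_combination ((Real.sqrt (x + 2) : ℂ) * (Real.sqrt (-(x + 1)) : ℂ) *
      (Real.sqrt (-x) : ℂ) * (Real.sqrt (-(x - 1)) : ℂ) * (Real.sqrt (-(x - 2)) : ℂ)) *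
      I_pow_four
  rw [e7]

theorem const_aux {u : ℝ → ℂ} {a b : ℝ} (hab : a < b) (hu : ContinuousOn u (Icc a b))
    (hd : ∀ x ∈ Ioo a b, HasDerivAt u 0 x) : u b = u a := by
  have hre : ∀ x ∈ Ioo a b, HasDerivAt (fun x => (u x).re) 0 x := by
    intro x hx
    have : HasDerivAt (fun x => (u x).re) (Complex.reCLM 0) x :=
      Complex.reCLM.hasFDerivAt.comp_hasDerivAt x (hd x hx)
    simpa using this
  have him : ∀ x ∈ Ioo a b, HasDerivAt (fun x => (u x).im) 0 x := by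
    intro x hx
    have : HasDerivAt (fun x => (u x).im) (Complex.imCLM 0) x :=
      Complex.imCLM.hasFDerivAt.comp_hasDerivAt x (hd x hx)
    simpa using this
  have h6 : b - a ≠ 0 := by linarith
  apply Complex.ext
  · have h3 : ContinuousOn (fun x => (u x).re) (Icc a b) := continuous_re.comp_continuousOn hu
    obtain ⟨c, hc, h4⟩ := exists_hasDerivAt_eq_slope (fun x => (u x).re) (fun _ => 0) hab h3 hre
    have h5 : (u b).re - (u a).re = 0 := by
      field_simp at h4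
      linarith
    linarith
  · have h3 : ContinuousOn (fun x => (u x).im) (Icc a b) := continuous_im.comp_continuousOn hu
    obtain ⟨c, hc, h4⟩ := exists_hasDerivAt_eq_slope (fun x => (u x).im) (fun _ => 0) hab h3 him
    have h5 : (u b).im - (u a).im = 0 := by
      field_simp at h4
      linarith
    linarith

theorem cont_U (p : ℕ) (hp : p ≤ 1) :
    ContinuousOn (fun x : ℝ => Up (w e0 p) x) (Icc (-2) (-1)) :=
  up_cont_real near_e0 (good_w near_e0.sep hp) (a := -2) (b := -1) (by norm_num) (k := 0) (l := 1)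
    (by simp [e0]) (by simp [e0]) (fun _ hx => mem_Dn hx)

theorem der_U (p : ℕ) (hp : p ≤ 1) {x : ℝ} (hx : x ∈ Ioo (-2 : ℝ) (-1)) :
    HasDerivAt (fun x : ℝ => Up (w e0 p) x) (w e0 p x) x :=
  ((good_w near_e0.sep hp).hasDerivAt near_e0.sep (mem_Dn hx)).comp_ofReal

theorem Cc_val (p : ℕ) (hp : p ≤ 1) :
    Cc e0 p 2 = 2 * (Up (w e0 p) ((-1 : ℝ) : ℂ) - Up (w e0 p) ((-2 : ℝ) : ℂ)) := by
  have h1 := two_up near_e0 hp 0
  have h2 := two_up near_e0 hp 1
  have h3 : ((-2 : ℝ) : ℂ) = e0 0 := by simp [e0]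
  have h4 : ((-1 : ℝ) : ℂ) = e0 1 := by simp [e0]
  rw [h3, h4]
  have h5 := Cc_zero near_e0 hp
  simp only [Fin.val_zero, Fin.val_one, zero_add, Nat.reduceAdd] at h1 h2
  linear_combination h1 - h2 + h5

theorem per : Pool.Agent.H840.KP.S_PER := by
  unfold Pool.Agent.H840.KP.S_PER
  rw [Cc_val 1 (by norm_num), Cc_val 0 (by norm_num)]
  have hc : ContinuousOn (fun x : ℝ => Up (w e0 1) x -
      ((Real.sqrt 2 : ℝ) : ℂ) * Up (w e0 0) ((2 / x : ℝ) : ℂ)) (Icc (-2) (-1)) := by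
    refine (cont_U 1 (by norm_num)).sub (continuousOn_const.mul ?_)
    refine (cont_U 0 (by norm_num)).comp (f := fun x : ℝ => 2 / x) ?_ (fun x hx => inv_mem' hx)
    refine continuousOn_const.div continuousOn_id fun x hx => ?_
    have : x < 0 := by linarith [hx.2]
    exact this.ne
  have hd : ∀ x ∈ Ioo (-2 : ℝ) (-1), HasDerivAt (fun x : ℝ => Up (w e0 1) x -
      ((Real.sqrt 2 : ℝ) : ℂ) * Up (w e0 0) ((2 / x : ℝ) : ℂ)) 0 x := by
    intro x hx
    have hx0 : x ≠ 0 := by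
      have : x < 0 := by linarith [hx.2]
      exact this.ne
    have h1 := der_U 1 (by norm_num) hx
    have h2 := der_U 0 (by norm_num) (inv_mem hx)
    have h3 : HasDerivAt (fun x : ℝ => 2 / x) (-2 / x ^ 2) x := by
      have h4 := (hasDerivAt_inv hx0).const_mul 2
      have e : (2 : ℝ) * -(x ^ 2)⁻¹ = -2 / x ^ 2 := by field_simp
      rw [e] at h4
      refine h4.congr_of_eventuallyEq (Eventually.of_forall fun y => ?_)
      simp only [div_eq_mul_inv]
    have h5 : HasDerivAt (fun x : ℝ => Up (w e0 0) ((2 / x : ℝ) : ℂ))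
        ((-2 / x ^ 2 : ℝ) • w e0 0 ((2 / x : ℝ) : ℂ)) x := HasDerivAt.scomp x h2 h3
    have h6 := h1.sub (h5.const_mul ((Real.sqrt 2 : ℝ) : ℂ))
    have e : w e0 1 (x : ℂ) - ((Real.sqrt 2 : ℝ) : ℂ) *
        ((-2 / x ^ 2 : ℝ) • w e0 0 ((2 / x : ℝ) : ℂ)) = 0 := by
      rw [w_val 1 hx, w_val 0 (inv_mem hx), R_inv hx, pow_one, pow_zero, one_mul,
        Complex.real_smul, ← Complex.ofReal_inv, ← Complex.ofReal_inv, ← Complex.ofReal_mul,
        ← Complex.ofReal_mul, ← Complex.ofReal_mul, ← Complex.ofReal_sub,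
        Complex.ofReal_eq_zero]
      have hR := (R_pos hx).ne'
      have h2s : Real.sqrt 2 ≠ 0 := by positivity
      field_simp
      ring
    rw [e] at h6
    exact h6
  have h := const_aux (by norm_num) hc hd
  have e1 : (2 / (-1 : ℝ)) = -2 := by norm_num
  have e2 : (2 / (-2 : ℝ)) = -1 := by norm_num
  simp only [e1, e2] at h
  linear_combination 2 * h

end Pool.Agent.H766.KP
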